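import Pool.Agent.MP_249f74_an.H23.Gen
import Pool.Agent.MP_249f74_an.H92.Uni
import Pool.Agent.MP_249f74_an.H32.Tq
import Pool.Agent.MP_249f74_an.H18.Spec

/-!
A tangent complex in a finite class of a quadric is invariant, or the two mirrors commute.
-/

open Matrix hiding J vec

namespace Pool.Agent.MP_249f74_an.H23

open H32 (Mir St Qd Tl)
open H42 (ev Gen mp)
open H88 (cl)

variable {k C ι : Type} [Field k] [Algebra k ℝ] [Field C] [Algebra k C] [Fintype ι] [DecidableEq ι]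

theorem conf [IsAlgClosed C] [CharZero C] : H18.CONF k C ι := by
  intro m m' H P hq hne hH hP
  refine or_iff_not_imp_left.2 fun hc Ω _ _ _ l l2 t hl S => ?_
  obtain ⟨A, hA, hm⟩ := H32.ex_quad hq.le
  rw [← one_smul C (H17.Cm.quad A)] at hm
  have : CharZero Ω := charZero_of_injective_algebraMap (algebraMap C Ω).injective
  obtain ⟨L, _, _, _, v, hv⟩ := H96.Pv.exists_ext Ω Unit
  let _ : Algebra C L := ((algebraMap Ω L).comp (algebraMap C Ω)).toAlgebra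
  have : IsScalarTower C Ω L := IsScalarTower.of_algebraMap_eq fun _ => rfl
  have : CharZero L := charZero_of_injective_algebraMap (algebraMap Ω L).injective
  obtain ⟨x, hx⟩ : ∃ x : L, Transcendental Ω x := ⟨_, hv.1.transcendental ()⟩
  obtain ⟨s, s0, E0, e0, rfl⟩ := eig_of_st hA hm S rfl
  obtain ⟨c, hc'⟩ := ex_al (A.map (algebraMap C Ω)) l s0
  obtain ⟨y, hy⟩ := IsAlgClosed.exists_pow_nat_eq
    (Dt (Bm (A.map (algebraMap C L)) x) (algebraMap Ω L ∘ l)) two_pos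
  obtain ⟨z, hz, e1⟩ := zero_one hx c (E0.sq (hA.map _)) s0 ((E0.hv (hA.map _) s0 hc' l).2.2 e0) hy
  have z0 := root_ne hx (E0.sq (hA.map _)) s0 hz
  have hD := dl_ne hx A
  have hB := Bm_symm (hA.map _) hD
  obtain ⟨α, β, E1, h, eh, he⟩ : ∃ α β, Eig (Bm (A.map (algebraMap C L)) x) (algebraMap Ω L ∘ l)
      z α β ∧ ∃ h, h = Bm (A.map (algebraMap C L)) x *ᵥ Y (algebraMap Ω L ∘ l) α β ∧ ee h h ≠ 0 :=
    ⟨_, _, eig_al hB hz (ne_of_ee e1), _, rfl, e1⟩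
  by_cases hg : x ∉ cl C (Set.range (red h (algebraMap Ω L ∘ l)))
  · obtain ⟨d, hd⟩ := ex_der (M := cl C (Set.range (red h (algebraMap Ω L ∘ l)))) (x := x)
      fun h => hg (H17.cl_le subset_rfl (H17.mem_cl_iff.2 h))
    exact absurd (H92.ng hne.symm hA hm hl hx rfl rfl E1 eh he (d.restrictScalars C) hd fun j =>
      d.map_algebraMap ⟨_, H88.subset_cl _ ⟨j, rfl⟩⟩).2 hc
  have g0 : Gen C (red h (algebraMap Ω L ∘ l)) := by
    have := H88.rk_le ((cl_red hB z0 E1 eh he).trans (H17.cl_le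
      (Set.insert_subset (not_not.1 hg) (H88.subset_cl _))))
    rw [rk_trans hx, H32.cur_iff_rk.1 hl.1] at this
    exact H32.gen_iff_rk.2 this
  have E2 := E0.map (algebraMap Ω L) (algebraMap Ω L).injective
  have e2 := (map_ne_zero (algebraMap Ω L)).2 e0
  rw [← ee_map, ← mulVec_map, ← Y_map] at e2
  have e3 := red_map (algebraMap Ω L) (A.map (algebraMap C Ω) *ᵥ Y l 1 t) l
  rw [← mulVec_map, ← Y_map] at e3
  rw [map_map] at E2 e2 e3
  obtain ⟨α0, β0, α', β', D, h', k', F0, F1, f0, f1, f2, f3, f4⟩ := square (hA.map _) hD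
    (fun e => hx (e ▸ isAlgebraic_zero)) E2 E1 rfl eh e2 he
  obtain ⟨b1, b2, b3⟩ := F0.gen hq hA hm g0 f0
  rw [e3] at F1 f1 f4
  have D0 := left_ne_zero_of_mul (f2 ▸ b3)
  have b4 : ee k' k' ≠ 0 := f3 ▸ mul_ne_zero D0 he
  have S1 := F0.st hA hm b2 b1 f0 b3
  obtain ⟨t1, t2, t3⟩ := Finset.exists_mem_ne (by rw [H32.card_pts m (S1.gen g0), hq]; simp)
    (β0 / α0)
  obtain ⟨σ, σ1, σ2⟩ := H92.sig g0 (S1.gen g0) S1.mem t2
  obtain ⟨c1, c2⟩ := E1.red (eh ▸ he)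
  obtain ⟨c3, c4⟩ := F1.red (f1 ▸ b4)
  rw [← eh] at c1 c2
  rw [← f1, f4 D0] at c3 c4
  obtain ⟨ρ, r1, r2, r3⟩ := gen hq hA hm hH.ne (fun L _ _ l l' t => hH.iv.st hH.lin) g0 S1 σ σ1 _
    (fun i => IntermediateField.subset_adjoin _ _ (.inl ⟨i, rfl⟩))
    (fun z hz N hN => H92.uni hq g0 S1 t2 t3 σ1 σ2 hz hN) hD c2 (neg_ne_zero.2 z0)
    (h := h) (by rw [c1, eh]) he (by rw [red_red he, ev_comp, hH.tn.tl hH.lin hl, map_zero])
  have c5 := c2.map (ρ : L →+* L) ρ.injective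
  have c6 := mulVec_map (ρ : L →+* L) (Bm (A.map (algebraMap C L)) x)
    (Y (red h (algebraMap Ω L ∘ l)) α β)
  have c7 : (Bm (A.map (algebraMap C L)) x).map (ρ : L →+* L) = Bm (A.map (algebraMap C L)) x := by
    rw [Bm_map, Matrix.map_map]
    exact congrArg₂ _ (by ext; simp) r2
  have c8 : (ρ : L →+* L) ∘ red h (algebraMap Ω L ∘ l) = _ := r1
  rw [← Y_map] at c6
  rw [c7, c8] at c5 c6
  obtain ⟨r, r0, rfl, rfl⟩ := (show Eig _ _ (-z) _ _ from r3 ▸ c5).uniq hB (neg_ne_zero.2 z0) c4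
  have c9 := red_map (ρ : L →+* L) h (red h (algebraMap Ω L ∘ l))
  rw [c1, ← eh] at c6
  rw [← c3, Y_smul, mulVec_smul, c6] at f1
  rw [← smul_red r0, ← f1, c8, ← f4 D0, red_red b4, red_red he] at c9
  refine (algebraMap Ω L).injective ?_
  rw [← ev_comp, c9, map_zero]
  exact (H32.ev_mp ρ _ P).trans (by rw [ev_comp, hP.tn.tl hP.lin hl, map_zero, map_zero])

end Pool.Agent.MP_249f74_an.H23
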