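import Pool.Agent.MP_249f74_an.H17.Base

/-!
Invariant functions on a hyperelliptic curve, and linear disjointness.
-/

open Polynomial

namespace Pool.Agent.MP_249f74_an.H23

open H88 (cl mem_cl_of_root subset_cl)

variable {B Ω L : Type} [Field B] [Field Ω] [Field L] (f g : B →+* Ω)

/-- An invariant fraction has an invariant numerator and an invariant denominator. -/
lemma reduce {a d : B[X]} (hd : d ≠ 0) (h : a.map g * d.map f = a.map f * d.map g) :
    ∃ a1 a2 : B[X], a2 ≠ 0 ∧ a1 * d = a * a2 ∧ a1.map g = a1.map f ∧ a2.map g = a2.map f := by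
  obtain ⟨r, hr⟩ : ∃ r : RatFunc B, r = algebraMap _ _ a / algebraMap _ _ d := ⟨_, rfl⟩
  have e := (RatFunc.num_mul_eq_mul_denom_iff hd).2 hr
  have m := r.monic_denom
  have e1 := congrArg (map f) e
  have e2 := congrArg (map g) e
  simp only [Polynomial.map_mul] at e1 e2
  have h1 : r.num.map g * r.denom.map f = r.num.map f * r.denom.map g :=
    mul_left_cancel₀ (mul_ne_zero ((Polynomial.map_ne_zero_iff f.injective).2 hd)
      ((Polynomial.map_ne_zero_iff g.injective).2 hd)) (by
      linear_combination d.map f * r.denom.map f * e2 - d.map g * r.denom.map g * e1 +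
        r.denom.map f * r.denom.map g * h)
  have h2 : r.denom.map g = r.denom.map f :=
    eq_of_monic_of_dvd_of_natDegree_le (m.map f) (m.map g)
      ((r.isCoprime_num_denom.map (mapRingHom f)).symm.dvd_of_dvd_mul_left
        ⟨_, h1.symm.trans (mul_comm _ _)⟩) (by simp)
  exact ⟨_, _, m.ne_zero, e, mul_right_cancel₀ (m.map f).ne_zero (by rw [h1, h2]), h2⟩

variable [Algebra Ω L] [CharZero L]

/-- A zero of an invariant function is algebraic over the invariants. -/
lemma alg {x y : L} (hx : Transcendental Ω x) (y0 : y ≠ 0) {n0 n1 e0 e1 D : B[X]}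
    (hD : D.map g = D.map f) (hy : y ^ 2 = aeval x (D.map f))
    (H : ∀ z, z ^ 2 = aeval x (D.map f) →
      aeval x (n0.map f) + aeval x (n1.map f) * z ≠ 0 ∧
      aeval x (e0.map f) + aeval x (e1.map f) * z ≠ 0 ∧
      aeval x (e0.map g) + aeval x (e1.map g) * z ≠ 0 ∧
      (aeval x (n0.map g) + aeval x (n1.map g) * z) *
          (aeval x (e0.map f) + aeval x (e1.map f) * z) =
        (aeval x (n0.map f) + aeval x (n1.map f) * z) *
          (aeval x (e0.map g) + aeval x (e1.map g) * z))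
    {μ s : Ω} (hs : s ^ 2 = (D.map f).eval μ) (hn : (n0.map f).eval μ + (n1.map f).eval μ * s = 0)
    (he : (e0.map f).eval μ + (e1.map f).eval μ * s ≠ 0) :
    ∃ P : B[X], P ≠ 0 ∧ P.map g = P.map f ∧ (P.map f).eval μ = 0 := by
  have inj : ∀ p q : Polynomial Ω, aeval x p = aeval x q → p = q := fun p q h =>
    transcendental_iff_injective.1 hx h
  obtain ⟨p1, p2, p3, p4⟩ := H y hy
  obtain ⟨q1, q2, q3, q4⟩ := H (-y) (by rw [neg_sq, hy])
  obtain ⟨d, hd⟩ : ∃ d, d = e0 ^ 2 - e1 ^ 2 * D := ⟨_, rfl⟩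
  obtain ⟨a, ha⟩ : ∃ a, a = n0 * e0 - n1 * e1 * D := ⟨_, rfl⟩
  obtain ⟨b, hb⟩ : ∃ b, b = n1 * e0 - n0 * e1 := ⟨_, rfl⟩
  have d0 : d ≠ 0 := fun h => mul_ne_zero p2 q2 (by
    have := congrArg (fun p => aeval x (map f p)) (hd.symm.trans h)
    simp only [Polynomial.map_sub, Polynomial.map_mul, Polynomial.map_pow, map_sub, map_mul,
      map_pow, ← hy, Polynomial.map_zero, map_zero] at this
    linear_combination this)
  have n0' : a ^ 2 - b ^ 2 * D ≠ 0 := fun h => mul_ne_zero (mul_ne_zero p1 q1) (mul_ne_zero p2 q2) (by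
    have := congrArg (fun p => aeval x (map f p)) h
    simp only [ha, hb, Polynomial.map_sub, Polynomial.map_mul, Polynomial.map_pow, map_sub, map_mul,
      map_pow, ← hy, Polynomial.map_zero, map_zero] at this
    linear_combination this)
  obtain ⟨a1, a2, a3, a4, a5, a6⟩ := reduce f g d0 (a := a) (inj _ _ (by
    simp only [ha, hd, Polynomial.map_sub, Polynomial.map_mul, Polynomial.map_pow, map_sub, map_mul,
      map_pow, hD, ← hy]
    refine mul_left_cancel₀ two_ne_zero ?_
    linear_combination (aeval x (e0.map f) - aeval x (e1.map f) * y) *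
      (aeval x (e0.map g) - aeval x (e1.map g) * y) * p4 +
      (aeval x (e0.map f) + aeval x (e1.map f) * y) *
      (aeval x (e0.map g) + aeval x (e1.map g) * y) * q4))
  obtain ⟨b1, b2, b3, b4, b5, b6⟩ := reduce f g d0 (a := b) (inj _ _ (by
    simp only [hb, hd, Polynomial.map_sub, Polynomial.map_mul, Polynomial.map_pow, map_sub, map_mul,
      map_pow, hD, ← hy]
    refine mul_left_cancel₀ (mul_ne_zero two_ne_zero y0) ?_
    linear_combination (aeval x (e0.map f) - aeval x (e1.map f) * y) *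
      (aeval x (e0.map g) - aeval x (e1.map g) * y) * p4 -
      (aeval x (e0.map f) + aeval x (e1.map f) * y) *
      (aeval x (e0.map g) + aeval x (e1.map g) * y) * q4))
  refine ⟨(a1 * b2) ^ 2 - (b1 * a2) ^ 2 * D, fun h => ?_, ?_, ?_⟩
  · refine mul_ne_zero (pow_ne_zero 2 (mul_ne_zero a3 b3)) n0' ?_
    linear_combination d ^ 2 * h - b2 ^ 2 * (a1 * d + a * a2) * a4 +
      a2 ^ 2 * D * (b1 * d + b * b2) * b4
  · simp only [Polynomial.map_sub, Polynomial.map_mul, Polynomial.map_pow, hD, a5, a6, b5, b6]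
  · have c0 : a2 * b2 * n0 = e0 * a1 * b2 + e1 * b1 * a2 * D := mul_left_cancel₀ d0 (by
      linear_combination -e0 * b2 * a4 - e1 * a2 * D * b4 + a2 * b2 * n0 * hd -
        e0 * b2 * a2 * ha - e1 * a2 * D * b2 * hb)
    have c1 : a2 * b2 * n1 = e0 * b1 * a2 + e1 * a1 * b2 := mul_left_cancel₀ d0 (by
      linear_combination -e1 * b2 * a4 - e0 * a2 * b4 + a2 * b2 * n1 * hd -
        e1 * b2 * a2 * ha - e0 * a2 * b2 * hb)
    have c2 := congrArg (fun p => eval μ (map f p)) c0
    have c3 := congrArg (fun p => eval μ (map f p)) c1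
    simp only [Polynomial.map_sub, Polynomial.map_add, Polynomial.map_mul, Polynomial.map_pow,
      eval_add, eval_sub, eval_mul, eval_pow, ← hs] at c2 c3 ⊢
    have c4 : (a1.map f).eval μ * (b2.map f).eval μ +
        (b1.map f).eval μ * (a2.map f).eval μ * s = 0 := (mul_eq_zero.1 (by
      linear_combination (a2.map f).eval μ * (b2.map f).eval μ * hn - c2 - s * c3)).resolve_left he
    linear_combination ((a1.map f).eval μ * (b2.map f).eval μ -
      (b1.map f).eval μ * (a2.map f).eval μ * s) * c4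

section LD

variable {C : Type} [Field C] [Algebra C Ω] (σ : Ω ≃ₐ[C] Ω)

/-- The fixed field of an automorphism. -/
def fix : IntermediateField C Ω := IntermediateField.fixedField (Subgroup.zpowers σ)

lemma mem_fix {z : Ω} : z ∈ fix σ ↔ σ z = z := by
  rw [fix, IntermediateField.mem_fixedField_iff]
  refine ⟨fun h => h σ (Subgroup.mem_zpowers σ), fun h τ hτ => ?_⟩
  have : Subgroup.zpowers σ ≤ MulAction.stabilizer _ z := (Subgroup.zpowers_le).2 h
  exact this hτ

lemma periodic {F : IntermediateField C Ω} (hF : F ≤ fix σ) {z : Ω} (hz : IsAlgebraic F z) :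
    ∃ N, 0 < N ∧ (σ ^ N) z = z := by
  obtain ⟨p, p0, hp⟩ := hz
  have h1 : ∀ w, w ∈ p.rootSet Ω → σ w ∈ p.rootSet Ω := fun w hw => by
    rw [mem_rootSet] at hw ⊢
    refine ⟨p0, ?_⟩
    have := congrArg σ hw.2
    rw [aeval_eq_sum_range, map_sum, map_zero] at this
    rw [aeval_eq_sum_range, ← this]
    refine Finset.sum_congr rfl fun i _ => ?_
    rw [Algebra.smul_def, Algebra.smul_def, map_mul, map_pow]
    exact congrArg (· * _) ((mem_fix σ).1 (hF (p.coeff i).2)).symm
  obtain ⟨a, b, hab, e⟩ := Set.Finite.exists_lt_map_eq_of_forall_mem (f := fun n : ℕ => (σ ^ n) z)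
    (fun n => by
      induction n with
      | zero => exact mem_rootSet.2 ⟨p0, hp⟩
      | succ n ih => rw [pow_succ']; exact h1 _ ih) (p.rootSet_finite Ω)
  obtain ⟨N, rfl⟩ := Nat.exists_eq_add_of_lt hab
  refine ⟨N + 1, N.succ_pos, (σ ^ a).injective ?_⟩
  rw [← AlgEquiv.mul_apply, ← pow_add, ← add_assoc]
  exact e.symm

/-- Elements that are algebraic over the invariants can be fixed. -/
lemma disjoint [IsAlgClosed Ω] [CharZero Ω] (K : IntermediateField C Ω)
    (uni : ∀ z ∈ K, ∀ N, 0 < N → (σ ^ N) z = z → σ z = z) {μ s : Ω}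
    (hμ : μ ∈ cl C ((K ⊓ fix σ : IntermediateField C Ω) : Set Ω))
    (hs : s ∈ cl C ((K ⊓ fix σ : IntermediateField C Ω) : Set Ω)) :
    ∃ ρ : Ω ≃ₐ[C] Ω, (∀ z ∈ K, ρ z = σ z) ∧ ρ μ = μ ∧ ρ s = s := by
  obtain ⟨F, hF⟩ : ∃ F, F = K ⊓ fix σ := ⟨_, rfl⟩
  rw [← hF, H17.mem_cl_iff] at hμ hs
  have h1 : F ≤ K := hF ▸ inf_le_left
  have h2 : F ≤ fix σ := hF ▸ inf_le_right
  have : CharZero F := algebraRat.charZero _
  have : FiniteDimensional F (IntermediateField.adjoin F {μ, s}) :=
    IntermediateField.finiteDimensional_adjoin fun x hx => by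
      rcases hx with rfl | rfl
      exacts [hμ.isIntegral, hs.isIntegral]
  obtain ⟨ξ, hξ⟩ := Field.exists_primitive_element F (IntermediateField.adjoin F {μ, s})
  have hi : IsIntegral F (ξ : Ω) := (Algebra.IsIntegral.isIntegral (R := F) ξ).map
    (IntermediateField.val _)
  let _ : Algebra F K := (IntermediateField.inclusion h1).toAlgebra
  have : IsScalarTower F K Ω := IsScalarTower.of_algebraMap_eq fun _ => rfl
  have hK : IsIntegral K (ξ : Ω) := hi.tower_top
  have h3 : ∀ i, σ ((minpoly K (ξ : Ω)).coeff i) = (minpoly K (ξ : Ω)).coeff i := fun i => by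
    obtain ⟨N, N0, hN⟩ := periodic σ h2 ((isIntegral_coeff_of_dvd _ _ (minpoly.monic hi)
      (minpoly.monic hK) (minpoly.dvd_map_of_isScalarTower F K (ξ : Ω)) i).map
      (IsScalarTower.toAlgHom F K Ω)).isAlgebraic
    exact uni _ (SetLike.coe_mem _) N N0 hN
  obtain ⟨τ, hτ⟩ := H17.aut_root (y := σ.symm ξ) hK.isAlgebraic (σ.injective (by
    rw [aeval_eq_sum_range, map_sum, map_zero, ← minpoly.aeval K (ξ : Ω), aeval_eq_sum_range]
    refine Finset.sum_congr rfl fun i _ => ?_
    rw [Algebra.smul_def, Algebra.smul_def, map_mul, map_pow, σ.apply_symm_apply]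
    exact congrArg (· * _) (h3 i)))
  let ρ : Ω ≃ₐ[C] Ω := (τ.restrictScalars C).trans σ
  have r0 : ∀ z ∈ K, ρ z = σ z := fun z hz => congrArg σ (τ.commutes ⟨z, hz⟩)
  have r2 : ∀ z : IntermediateField.adjoin F {μ, s}, ρ z = z := fun z => by
    obtain ⟨p, q, e⟩ := (IntermediateField.mem_adjoin_simple_iff _ (α := ξ) z).1
      (hξ ▸ IntermediateField.mem_top)
    have key : ∀ p : F[X], ρ (aeval ξ p : IntermediateField.adjoin F {μ, s}) =
        (aeval ξ p : IntermediateField.adjoin F {μ, s}) := fun p => by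
      induction p using Polynomial.induction_on' with
      | add p q hp hq => simp [hp, hq]
      | monomial n a =>
        have e : ρ ξ = ξ := σ.eq_symm_apply.1 hτ
        simp only [aeval_monomial, MulMemClass.coe_mul, map_mul, SubmonoidClass.coe_pow, map_pow, e]
        exact congrArg (· * _) ((r0 _ (h1 a.2)).trans ((mem_fix σ).1 (h2 a.2)))
    rw [e, IntermediateField.coe_div, map_div₀, key, key]
  exact ⟨ρ, r0, r2 ⟨μ, IntermediateField.subset_adjoin _ _ (by simp)⟩,
    r2 ⟨s, IntermediateField.subset_adjoin _ _ (by simp)⟩⟩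

end LD

end Pool.Agent.MP_249f74_an.H23
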