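import Pool.Agent.MP_249f74_an.H32.Bas
import Pool.Agent.MP_249f74_an.H17.CmConf

/-!
The confocal pencil of a quadric and the reflection of edges in its members.
-/

open Matrix hiding J vec

namespace Pool.Agent.MP_249f74_an.H23

open H17.Cm (hat vec sp J quad rf grad hat_dot vec_dot J_mulVec symm_dot sp_add sp_sub sp_smul
  sp_vec sp_hat)
open H32 (pos dir pt edge)

variable {ι : Type} [Fintype ι] [DecidableEq ι]

section Ring

variable {T : Type} [CommRing T]

/-- The determinant of the pencil. -/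
def Dl (A : Matrix (Option ι) (Option ι) T) (μ : T) : T := (1 - μ • (A * J ι T)).det

/-- The member of the confocal pencil with the parameter `μ`. -/
def Bm (A : Matrix (Option ι) (Option ι) T) (μ : T) : Matrix (Option ι) (Option ι) T :=
  (1 - μ • (A * J ι T)).adjugate * A

/-- A point of the line of an edge in homogeneous coordinates. -/
def Y (l : ι ⊕ ι → T) (α β : T) : Option ι → T := α • hat (pos l) + β • vec (dir l)

/-- The absolute form on covectors. -/
def ee (h k : Option ι → T) : T := sp h ⬝ᵥ sp k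

/-- The discriminant of the section of a quadric. -/
def Dt (B : Matrix (Option ι) (Option ι) T) (l : ι ⊕ ι → T) : T :=
  (hat (pos l) ⬝ᵥ B *ᵥ vec (dir l)) ^ 2 -
    (hat (pos l) ⬝ᵥ B *ᵥ hat (pos l)) * (vec (dir l) ⬝ᵥ B *ᵥ vec (dir l))

/-- A point of the section of a quadric together with the square root of the discriminant. -/
structure Eig (B : Matrix (Option ι) (Option ι) T) (l : ι ⊕ ι → T) (s α β : T) : Prop where
  ne : α ≠ 0 ∨ β ≠ 0
  hb : (B *ᵥ Y l α β) ⬝ᵥ vec (dir l) = s * α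
  ha : (B *ᵥ Y l α β) ⬝ᵥ hat (pos l) = -(s * β)

@[simp] lemma Dl_zero (A : Matrix (Option ι) (Option ι) T) : Dl A 0 = 1 := by simp [Dl]

@[simp] lemma Bm_zero (A : Matrix (Option ι) (Option ι) T) : Bm A 0 = A := by simp [Bm]

lemma Bm_left (A : Matrix (Option ι) (Option ι) T) (μ : T) :
    Bm A μ - μ • (A * J ι T * Bm A μ) = Dl A μ • A := by
  have := congrArg (· * A) (mul_adjugate (1 - μ • (A * J ι T)))
  simpa [Bm, Dl, sub_mul, Matrix.mul_assoc] using this

lemma Bm_right (A : Matrix (Option ι) (Option ι) T) (μ : T) :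
    Bm A μ - μ • (Bm A μ * J ι T * A) = Dl A μ • A := by
  have := congrArg (· * A) (adjugate_mul (1 - μ • (A * J ι T)))
  simpa [Bm, Dl, mul_sub, sub_mul, Matrix.mul_assoc] using this

section Map

variable {T' : Type} [CommRing T'] (φ : T →+* T')

lemma pen_map (A : Matrix (Option ι) (Option ι) T) (μ : T) :
    (1 - μ • (A * J ι T)).map φ = 1 - φ μ • (A.map φ * J ι T') := by
  rw [Matrix.map_sub _ (map_sub φ), Matrix.map_one _ (map_zero φ) (map_one φ),
    ← H17.Cm.J_map φ, ← Matrix.map_mul]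
  congr 1
  ext a b
  exact map_mul φ _ _

lemma Bm_map (A : Matrix (Option ι) (Option ι) T) (μ : T) :
    (Bm A μ).map φ = Bm (A.map φ) (φ μ) := by
  rw [Bm, Bm, Matrix.map_mul, ← pen_map, ← RingHom.mapMatrix_apply, RingHom.map_adjugate]
  rfl

lemma Dl_map (A : Matrix (Option ι) (Option ι) T) (μ : T) :
    φ (Dl A μ) = Dl (A.map φ) (φ μ) := by
  rw [Dl, Dl, RingHom.map_det, RingHom.mapMatrix_apply, pen_map]

omit [Fintype ι] [DecidableEq ι]

lemma hat_map (l : ι ⊕ ι → T) : hat (pos (φ ∘ l)) = φ ∘ hat (pos l) := by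
  ext (_ | i) <;> simp [hat, pos]

lemma vec_map (l : ι ⊕ ι → T) : vec (dir (φ ∘ l)) = φ ∘ vec (dir l) := by
  ext (_ | i) <;> simp [vec, dir]

lemma Y_map (l : ι ⊕ ι → T) (α β : T) : Y (φ ∘ l) (φ α) (φ β) = φ ∘ Y l α β := by
  ext o; simp [Y, hat_map, vec_map]

lemma dot_map {n : Type} [Fintype n] (a b : n → T) : (φ ∘ a) ⬝ᵥ (φ ∘ b) = φ (a ⬝ᵥ b) := by
  simp [dotProduct]

lemma mulVec_map {n : Type} [Fintype n] (B : Matrix n n T) (a : n → T) :
    B.map φ *ᵥ (φ ∘ a) = φ ∘ (B *ᵥ a) := by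
  ext i; simp [mulVec, dotProduct]

variable [Fintype ι]

lemma ee_map (h k : Option ι → T) : ee (φ ∘ h) (φ ∘ k) = φ (ee h k) := dot_map φ (sp h) (sp k)

lemma Dt_map (B : Matrix (Option ι) (Option ι) T) (l : ι ⊕ ι → T) :
    Dt (B.map φ) (φ ∘ l) = φ (Dt B l) := by
  simp only [Dt, hat_map, vec_map, mulVec_map, dot_map, map_sub, map_mul, map_pow]

lemma Eig.map (hφ : Function.Injective φ) {B : Matrix (Option ι) (Option ι) T} {l : ι ⊕ ι → T}
    {s α β : T} (E : Eig B l s α β) : Eig (B.map φ) (φ ∘ l) (φ s) (φ α) (φ β) := by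
  refine ⟨E.ne.imp ((map_ne_zero_iff φ hφ).2) ((map_ne_zero_iff φ hφ).2), ?_, ?_⟩
  · rw [Y_map, mulVec_map, vec_map, dot_map, E.hb, map_mul]
  · rw [Y_map, mulVec_map, hat_map, dot_map, E.ha, map_neg, map_mul]

end Map

omit [DecidableEq ι] in
lemma ee_comm (h k : Option ι → T) : ee h k = ee k h := dotProduct_comm _ _

lemma dot_vec_sp (h k : Option ι → T) : h ⬝ᵥ vec (sp k) = ee h k := by
  rw [dotProduct_comm, vec_dot, ee, dotProduct_comm]

omit [DecidableEq ι] in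
lemma Eig.zero {B : Matrix (Option ι) (Option ι) T} {l : ι ⊕ ι → T} {s α β : T}
    (E : Eig B l s α β) : (B *ᵥ Y l α β) ⬝ᵥ Y l α β = 0 := by
  conv_lhs => rhs; rw [Y]
  rw [dotProduct_add, dotProduct_smul, dotProduct_smul, E.ha, E.hb, smul_eq_mul, smul_eq_mul]
  ring

omit [DecidableEq ι] in
lemma dot_Y {B : Matrix (Option ι) (Option ι) T} (l : ι ⊕ ι → T) (α β : T) (Z : Option ι → T) :
    (B *ᵥ Y l α β) ⬝ᵥ Z = α * (Z ⬝ᵥ B *ᵥ hat (pos l)) + β * (Z ⬝ᵥ B *ᵥ vec (dir l)) := by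
  rw [dotProduct_comm, Y, mulVec_add, mulVec_smul, mulVec_smul, dotProduct_add, dotProduct_smul,
    dotProduct_smul, smul_eq_mul, smul_eq_mul]

omit [Fintype ι] [DecidableEq ι] in
lemma Y_smul (l : ι ⊕ ι → T) (c α β : T) : Y l (c * α) (c * β) = c • Y l α β := by
  rw [Y, Y, smul_add, smul_smul, smul_smul]

end Ring

section Field

variable {L : Type} [Field L] {A B : Matrix (Option ι) (Option ι) L} {μ s α β α' β' : L}
  {l : ι ⊕ ι → L} {h k : Option ι → L}

/-- The reflection in the hyperplane `h` in homogeneous coordinates. -/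
noncomputable def sr (h X : Option ι → L) : Option ι → L :=
  X - (2 * (h ⬝ᵥ X) / ee h h) • vec (sp h)

/-- The reflection of an edge in the hyperplane `h`. -/
noncomputable def red (h : Option ι → L) (l : ι ⊕ ι → L) : ι ⊕ ι → L :=
  Sum.elim (sp (sr h (hat (pos l)))) (sp (sr h (vec (dir l))))

lemma Bm_symm (hA : A.IsSymm) (hD : Dl A μ ≠ 0) : (Bm A μ).IsSymm := by
  have h1 := congrArg transpose (Bm_right A μ)
  rw [transpose_sub, transpose_smul, transpose_smul, transpose_mul, transpose_mul, hA.eq,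
    H17.Cm.J_symm.eq, ← Matrix.mul_assoc, ← Bm_left A μ] at h1
  have h2 : (1 - μ • (A * J ι L)) * ((Bm A μ)ᵀ - Bm A μ) = 0 := by
    rw [mul_sub, sub_mul, sub_mul, one_mul, one_mul, smul_mul_assoc, smul_mul_assoc, h1, sub_self]
  have h3 : IsUnit (1 - μ • (A * J ι L)) := (isUnit_iff_isUnit_det _).2 hD.isUnit
  exact sub_eq_zero.1 (h3.mul_right_eq_zero.1 h2)

lemma Bm_vec (A : Matrix (Option ι) (Option ι) L) (μ : L) (X : Option ι → L) :
    Bm A μ *ᵥ (X - μ • vec (sp (A *ᵥ X))) = Dl A μ • (A *ᵥ X) := by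
  rw [← J_mulVec, mulVec_sub, mulVec_smul, mulVec_mulVec, mulVec_mulVec, ← smul_mulVec,
    ← sub_mulVec, Bm_right, smul_mulVec]

lemma A_vec (A : Matrix (Option ι) (Option ι) L) (μ : L) (X : Option ι → L) :
    A *ᵥ (Dl A μ • X + μ • vec (sp (Bm A μ *ᵥ X))) = Bm A μ *ᵥ X := by
  rw [← J_mulVec, mulVec_add, mulVec_smul, mulVec_smul, mulVec_mulVec, mulVec_mulVec,
    ← smul_mulVec, ← smul_mulVec, ← add_mulVec, ← Bm_left, sub_add_cancel]

omit [DecidableEq ι] in
lemma hat_red (h : Option ι → L) (l : ι ⊕ ι → L) : hat (pos (red h l)) = sr h (hat (pos l)) := by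
  ext (_ | i)
  · simp [sr, hat, vec]
  · rfl

omit [DecidableEq ι] in
lemma vec_red (h : Option ι → L) (l : ι ⊕ ι → L) : vec (dir (red h l)) = sr h (vec (dir l)) := by
  ext (_ | i)
  · simp [sr, vec]
  · rfl

omit [DecidableEq ι] in
lemma sr_add (h X Z : Option ι → L) : sr h (X + Z) = sr h X + sr h Z := by
  simp only [sr, dotProduct_add, mul_add, add_div, add_smul]; abel

omit [DecidableEq ι] in
lemma sr_smul (h X : Option ι → L) (c : L) : sr h (c • X) = c • sr h X := by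
  simp only [sr, dotProduct_smul, smul_sub, smul_smul, smul_eq_mul]; congr 2; ring

omit [DecidableEq ι] in
lemma Y_red (h : Option ι → L) (l : ι ⊕ ι → L) (α β : L) : Y (red h l) α β = sr h (Y l α β) := by
  rw [Y, Y, hat_red, vec_red, sr_add, sr_smul, sr_smul]

lemma dot_sr (h k X : Option ι → L) : k ⬝ᵥ sr h X = k ⬝ᵥ X - 2 * (h ⬝ᵥ X) / ee h h * ee k h := by
  rw [sr, dotProduct_sub, dotProduct_smul, dot_vec_sp, smul_eq_mul]

lemma dot_sr_self (he : ee h h ≠ 0) (X : Option ι → L) : h ⬝ᵥ sr h X = -(h ⬝ᵥ X) := by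
  rw [dot_sr]; field_simp; ring

omit [DecidableEq ι] in
lemma sr_of_dot {X : Option ι → L} (hX : h ⬝ᵥ X = 0) : sr h X = X := by simp [sr, hX]

lemma sr_sr (he : ee h h ≠ 0) (X : Option ι → L) : sr h (sr h X) = X := by
  rw [sr, dot_sr_self he, sr, mul_neg, neg_div, neg_smul, sub_neg_eq_add, sub_add_cancel]

lemma smul_sr {c : L} (hc : c ≠ 0) (h X : Option ι → L) : sr (c • h) X = sr h X := by
  have e : ee (c • h) (c • h) = c * c * ee h h := by simp [ee, mul_assoc]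
  rw [sr, sr, e, smul_dotProduct, sp_smul, H17.Cm.vec_smul, smul_smul, smul_eq_mul]
  congr 2
  by_cases h0 : ee h h = 0
  · simp [h0]
  · field_simp

omit [Fintype ι] [DecidableEq ι] in
lemma edge_ext {l l' : ι ⊕ ι → L} (h1 : hat (pos l) = hat (pos l'))
    (h2 : vec (dir l) = vec (dir l')) : l = l' := by
  ext (i | i)
  · exact congrFun h1 (some i)
  · exact congrFun h2 (some i)

lemma red_red (he : ee h h ≠ 0) (l : ι ⊕ ι → L) : red h (red h l) = l :=
  edge_ext (by rw [hat_red, hat_red, sr_sr he]) (by rw [vec_red, vec_red, sr_sr he])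

lemma smul_red {c : L} (hc : c ≠ 0) (h : Option ι → L) (l : ι ⊕ ι → L) :
    red (c • h) l = red h l := by simp only [red, smul_sr hc]

omit [DecidableEq ι] in
lemma Eig.sq (hB : B.IsSymm) (E : Eig B l s α β) : s ^ 2 = Dt B l := by
  have h1 := E.ha
  have h2 := E.hb
  rw [dot_Y] at h1 h2
  rw [symm_dot hB] at h2
  rw [Dt, ← sub_eq_zero]
  rcases E.ne with h | h <;> refine (mul_eq_zero.1 ?_).resolve_left h
  · linear_combination (vec (dir l) ⬝ᵥ B *ᵥ vec (dir l)) * h1 -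
      (s + hat (pos l) ⬝ᵥ B *ᵥ vec (dir l)) * h2
  · linear_combination (hat (pos l) ⬝ᵥ B *ᵥ hat (pos l)) * h2 +
      (s - hat (pos l) ⬝ᵥ B *ᵥ vec (dir l)) * h1

omit [DecidableEq ι] in
lemma Eig.smul (E : Eig B l s α β) {c : L} (hc : c ≠ 0) : Eig B l s (c * α) (c * β) := by
  refine ⟨E.ne.imp (mul_ne_zero hc) (mul_ne_zero hc), ?_, ?_⟩ <;>
    rw [Y_smul, mulVec_smul, smul_dotProduct, smul_eq_mul]
  · rw [E.hb]; ring
  · rw [E.ha]; ring

omit [DecidableEq ι] in
/-- The square root determines the point. -/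
lemma Eig.uniq [CharZero L] (hB : B.IsSymm) (hs : s ≠ 0) (E : Eig B l s α β)
    (E' : Eig B l s α' β') : ∃ c, c ≠ 0 ∧ α' = c * α ∧ β' = c * β := by
  have h1 : (B *ᵥ Y l α β) ⬝ᵥ Y l α' β' = (B *ᵥ Y l α' β') ⬝ᵥ Y l α β := by
    rw [dotProduct_comm, symm_dot hB, dotProduct_comm]
  conv_lhs at h1 => rhs; rw [Y]
  conv_rhs at h1 => rhs; rw [Y]
  simp only [dotProduct_add, dotProduct_smul, E.ha, E.hb, E'.ha, E'.hb, smul_eq_mul] at h1
  have h2 : α * β' = α' * β := mul_left_cancel₀ (mul_ne_zero two_ne_zero hs) (by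
    linear_combination h1)
  rcases E.ne with h | h
  · refine ⟨α' / α, fun h0 => ?_, by field_simp, by field_simp; linear_combination h2⟩
    have h3 : α' = 0 := by simpa [h] using h0
    rw [h3, zero_mul, mul_eq_zero, or_iff_right h] at h2
    exact E'.ne.elim (· h3) (· h2)
  · refine ⟨β' / β, fun h0 => ?_, by field_simp; linear_combination -h2, by field_simp⟩
    have h3 : β' = 0 := by simpa [h] using h0
    rw [h3, mul_zero, eq_comm, mul_eq_zero, or_iff_left h] at h2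
    exact E'.ne.elim (· h2) (· h3)

/-- The point stays on the reflected edge. -/
lemma Eig.red (E : Eig B l s α β) (he : ee (B *ᵥ Y l α β) (B *ᵥ Y l α β) ≠ 0) :
    Y (red (B *ᵥ Y l α β) l) α β = Y l α β ∧ Eig B (red (B *ᵥ Y l α β) l) (-s) α β := by
  have e : Y (H23.red (B *ᵥ Y l α β) l) α β = Y l α β := by rw [Y_red, sr_of_dot E.zero]
  refine ⟨e, E.ne, ?_, ?_⟩
  · rw [e, vec_red, dot_sr_self he, E.hb]; ring
  · rw [e, hat_red, dot_sr_self he, E.ha]; ring

omit [DecidableEq ι] in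
lemma red_map {L' : Type} [Field L'] (φ : L →+* L') (h : Option ι → L) (l : ι ⊕ ι → L) :
    red (φ ∘ h) (φ ∘ l) = φ ∘ red h l := by
  ext (i | i) <;> simp [red, sr, sp, hat_map, vec_map, dot_map, ee_map, map_ofNat, vec]
  rfl

end Field

section Model

variable {k C L : Type} [Field k] [Algebra k ℝ] [Field C] [Algebra k C] [Field L] [Algebra C L]
  [CharZero L] {m : H32.Mir k C ι} {A : Matrix (Option ι) (Option ι) C} {a : C}
  {l l' : ι ⊕ ι → L} {t s α β : L}

omit [CharZero L] in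
lemma Y_one (l : ι ⊕ ι → L) (t : L) : Y l 1 t = hat (pt l t) := by
  rw [Y, pt, H17.Cm.hat_add, H17.Cm.vec_smul, one_smul]

omit [CharZero L] in
lemma red_eq {h : Option ι → L} (h0 : h ⬝ᵥ hat (pt l t) = 0) :
    red h l = edge (pt l t) (rf (sp h) (dir l)) t := by
  have e : dir (red h l) = rf (sp h) (dir l) := by
    change sp (sr h _) = _
    rw [sr, dotProduct_comm, vec_dot, dotProduct_comm]; rfl
  refine H32.eq_of_pt (t := t) ?_ e
  have := Y_red h l 1 t
  rw [Y_one, Y_one, sr_of_dot h0] at this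
  rw [H32.pt_edge]
  exact congrArg sp this

lemma st_iff (hA : A.IsSymm) (hm : m.f = a • quad A) {h : Option ι → L}
    (eh : h = A.map (algebraMap C L) *ᵥ Y l 1 t) :
    H32.St m l t l' ↔ h ⬝ᵥ Y l 1 t = 0 ∧ ee h h ≠ 0 ∧ h ⬝ᵥ vec (dir l) ≠ 0 ∧ l' = red h l := by
  have ha : a ≠ 0 := fun e => m.prime.ne_zero (by simp [hm, e])
  have h2 : algebraMap C L a * 2 ≠ 0 := by simpa using ha
  rw [Y_one] at eh ⊢
  have e1 : grad m.f (pt l t) = (algebraMap C L a * 2) • sp h := by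
    rw [hm, H17.Cm.grad_smul, H17.Cm.grad_quad hA, smul_smul, eh]
  have e0 : MvPolynomial.aeval (pt l t) m.f = 0 ↔ h ⬝ᵥ hat (pt l t) = 0 := by
    rw [hm, map_smul, H17.Cm.aeval_quad, ← eh, dotProduct_comm]; simp [ha]
  have e2 : grad m.f (pt l t) ⬝ᵥ grad m.f (pt l t) ≠ 0 ↔ ee h h ≠ 0 := by
    simp [e1, ee, ha]
  have e3 : grad m.f (pt l t) ⬝ᵥ dir l ≠ 0 ↔ h ⬝ᵥ vec (dir l) ≠ 0 := by
    rw [dotProduct_comm h, vec_dot, dotProduct_comm (dir l)]; simp [e1, ha]
  refine ⟨fun S => ⟨e0.1 S.zero, e2.1 S.nn, e3.1 S.nu, ?_⟩, fun ⟨h0, h1, h3, h4⟩ => ?_⟩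
  · rw [S.eq_edge, e1, H17.Cm.smul_rf h2, red_eq (e0.1 S.zero)]
  · have := H32.st_edge (e0.2 h0) (e2.2 h1) (e3.2 h3)
    rwa [e1, H17.Cm.smul_rf h2, ← red_eq h0, ← h4] at this

/-- A step gives a point with a square root. -/
lemma eig_of_st (hA : A.IsSymm) (hm : m.f = a • quad A) (S : H32.St m l t l') {h : Option ι → L}
    (eh : h = A.map (algebraMap C L) *ᵥ Y l 1 t) :
    ∃ s, s ≠ 0 ∧ Eig (A.map (algebraMap C L)) l s 1 t ∧ ee h h ≠ 0 ∧ l' = red h l := by
  obtain ⟨h0, h1, h2, h3⟩ := (st_iff hA hm eh).1 S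
  refine ⟨_, h2, ⟨.inl one_ne_zero, by rw [← eh, mul_one], ?_⟩, h1, h3⟩
  rw [Y, dotProduct_add, one_smul, dotProduct_smul, smul_eq_mul] at h0
  rw [← eh]
  linear_combination h0

/-- A finite point with a square root gives a step. -/
lemma Eig.st (hA : A.IsSymm) (hm : m.f = a • quad A) (E : Eig (A.map (algebraMap C L)) l s α β)
    (hs : s ≠ 0) (hα : α ≠ 0) {h : Option ι → L} (eh : h = A.map (algebraMap C L) *ᵥ Y l α β)
    (he : ee h h ≠ 0) : H32.St m l (β / α) (H23.red h l) := by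
  have E' := E.smul (inv_ne_zero hα)
  have e : A.map (algebraMap C L) *ᵥ Y l 1 (β / α) = α⁻¹ • h := by
    rw [eh, ← mulVec_smul, ← Y_smul, inv_mul_cancel₀ hα, div_eq_inv_mul]
  rw [inv_mul_cancel₀ hα, ← div_eq_inv_mul] at E'
  refine (st_iff hA hm rfl).2 ⟨E'.zero, ?_, by rw [E'.hb, mul_one]; exact hs, ?_⟩
  · simpa [e, ee, hα] using he
  · rw [e, smul_red (inv_ne_zero hα)]

end Model

end Pool.Agent.MP_249f74_an.H23
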