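import Pool.Agent.MP_249f74_an.H23.Univ
import Pool.Agent.MP_249f74_an.H23.Alg
import Pool.Agent.MP_249f74_an.H65.Br
import Pool.Agent.MP_249f74_an.H92.Ng
import Pool.Agent.MP_249f74_an.H96.Pv

/-!
Zeros of an invariant polynomial on the reflections of a generic edge in a confocal pencil.
-/

open Matrix hiding J vec

namespace Pool.Agent.MP_249f74_an.H23

open H17.Cm (hat vec sp J quad)
open H32 (pos dir pt Mir St Qd)
open H42 (ev Gen Cur mp)
open H88 (cl rk)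

variable {k C Ω L ι : Type} [Field k] [Algebra k ℝ] [Field C] [Algebra k C] [Field Ω]
  [Algebra C Ω] [Field L] [Algebra C L] [Fintype ι] [DecidableEq ι] {m : Mir k C ι}
  {A : Matrix (Option ι) (Option ι) C} {a : C}

section Generic

variable [CharZero Ω] {l : ι ⊕ ι → Ω} {s α β : Ω} (hq : Qd m) (hA : A.IsSymm)
  (hm : m.f = a • quad A) (hl : Gen C l)
include hq hm hl

lemma gen_bb : vec (dir l) ⬝ᵥ A.map (algebraMap C Ω) *ᵥ vec (dir l) ≠ 0 :=
  H17.Cm.top_quad (hm ▸ hq) (hm ▸ fun e => H32.top_ne m.prime.ne_zero (H32.gen_dir hl _ e))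

lemma gen_al (c : Bool) (s : Ω) :
    al c (A.map (algebraMap C Ω)) l s ≠ 0 ∨ be c (A.map (algebraMap C Ω)) l s ≠ 0 := by
  cases c
  · refine .inr (neg_ne_zero.2 fun e => m.prime.ne_zero ?_)
    refine H32.gen_iff.2 ((H32.gen_iff.1 hl).comp _ Sum.inl_injective) _ ?_
    change MvPolynomial.aeval (pos l) m.f = 0
    rw [hm, map_smul, H17.Cm.aeval_quad, e, smul_zero]
  · exact .inl (gen_bb hq hm hl)

include hA

/-- The points of a generic edge are finite, simple and not isotropic. -/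
lemma Eig.gen (E : Eig (A.map (algebraMap C Ω)) l s α β) {h : Option ι → Ω}
    (eh : h = A.map (algebraMap C Ω) *ᵥ Y l α β) : α ≠ 0 ∧ s ≠ 0 ∧ ee h h ≠ 0 := by
  have hα : α ≠ 0 := fun e => by
    have := E.hb
    rw [dot_Y, e, zero_mul, mul_zero, zero_add, mul_eq_zero, or_iff_left (gen_bb hq hm hl)] at this
    exact E.ne.elim (· e) (· this)
  have E' := E.smul (inv_ne_zero hα)
  have e : A.map (algebraMap C Ω) *ᵥ Y l 1 (α⁻¹ * β) = α⁻¹ • h := by
    rw [eh, ← mulVec_smul, ← Y_smul, inv_mul_cancel₀ hα]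
  rw [inv_mul_cancel₀ hα] at E'
  obtain ⟨l', S⟩ := H32.gen_step (m := m) (t := α⁻¹ * β) hl (H32.mem_pts.2
    ⟨H32.sec_ne m.prime.ne_zero (H32.gen_dir hl), by
      rw [hm, map_smul, H17.Cm.aeval_quad, ← Y_one, dotProduct_comm, E'.zero, smul_zero]⟩)
  obtain ⟨-, h1, h2, -⟩ := (st_iff hA hm rfl).1 S
  rw [E'.hb, mul_one] at h2
  exact ⟨hα, h2, by simpa [e, ee, hα] using h1⟩

lemma gen_ee (c : Bool) (hs : s ^ 2 = Dt (A.map (algebraMap C Ω)) l) :
    ee (hv c (A.map (algebraMap C Ω)) l s) (hv c (A.map (algebraMap C Ω)) l s) ≠ 0 :=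
  ((eig_al (hA.map _) hs (gen_al hq hm hl c s)).gen hq hA hm hl rfl).2.2

end Generic

lemma ex_der {M : Type} [Field M] [Algebra M L] [CharZero L] {x : L} (hx : Transcendental M x) :
    ∃ D : Derivation M L L, D x = 1 := by
  obtain ⟨D, hD⟩ : ∃ D : Derivation M L L, D x ≠ 0 := by
    by_contra! hn
    exact hx (H65.alg_of_der hn)
  exact ⟨(D x)⁻¹ • D, by simp [hD]⟩

lemma eval_mem {F : IntermediateField C L} {p : Polynomial L} (hp : ∀ i, p.coeff i ∈ F) {x : L}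
    (hx : x ∈ F) : p.eval x ∈ F := by
  rw [Polynomial.eval_eq_sum_range]
  exact sum_mem fun i _ => mul_mem (hp i) (pow_mem hx _)

lemma sq_mem {S : Set L} {s : L} (h : s ^ 2 ∈ cl C S) : s ∈ cl C S := by
  refine H88.mem_cl_of_root (p := .X ^ 2 - .C (s ^ 2)) (Polynomial.X_pow_sub_C_ne_zero two_pos _)
    (fun i => ?_) (by simp)
  rw [Polynomial.coeff_sub, Polynomial.coeff_X_pow, Polynomial.coeff_C]
  exact sub_mem (by split_ifs <;> simp) (by split_ifs <;> simp [h])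

section Trans

variable [Algebra Ω L] [IsScalarTower C Ω L] [CharZero L] {x y α β : L} {l : ι ⊕ ι → Ω}

omit [CharZero L] [Fintype ι] [DecidableEq ι] in
lemma ev_comp (l : ι ⊕ ι → Ω) (F : MvPolynomial (ι ⊕ ι) C) :
    ev (algebraMap Ω L ∘ l) F = algebraMap Ω L (ev l F) :=
  (MvPolynomial.comp_aeval_apply l (IsScalarTower.toAlgHom C Ω L) F).symm

omit [CharZero L] [Fintype ι] [DecidableEq ι] in
lemma map_map (A : Matrix (Option ι) (Option ι) C) :
    (A.map (algebraMap C Ω)).map (algebraMap Ω L) = A.map (algebraMap C L) := by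
  rw [Matrix.map_map, ← RingHom.coe_comp, ← IsScalarTower.algebraMap_eq]

variable (hx : Transcendental Ω x)
include hx

omit [CharZero L] in
lemma dl_ne (A : Matrix (Option ι) (Option ι) C) : Dl (A.map (algebraMap C L)) x ≠ 0 :=
  map_map (Ω := Ω) (L := L) A ▸ H92.dl_ne hx _

omit [Fintype ι] [DecidableEq ι] in
lemma rk_trans (l : ι ⊕ ι → Ω) :
    rk C (insert x (Set.range (algebraMap Ω L ∘ l))) = rk C (Set.range l) + 1 := by
  obtain ⟨D, hD⟩ := ex_der hx
  rw [H88.rk_insert fun h => ?_, Set.range_comp]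
  · exact congrArg (· + 1) (H17.rk_map (IsScalarTower.toAlgHom C Ω L) _)
  · have := H17.kill_cl (δ := D.restrictScalars C) (by
      rintro _ ⟨i, rfl⟩
      exact D.map_algebraMap _) h
    exact one_ne_zero (hD.symm.trans this)

omit [CharZero L] in
lemma root_ne {s : Ω} (hs : s ^ 2 = Dt (A.map (algebraMap C Ω)) l) (s0 : s ≠ 0)
    (hy : y ^ 2 = Dt (Bm (A.map (algebraMap C L)) x) (algebraMap Ω L ∘ l)) : y ≠ 0 := fun e => by
  rw [← eval_DU, ← aeval_pm, e, zero_pow two_ne_zero] at hy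
  have := eval_DU A l 0
  rw [transcendental_iff.1 hx _ hy.symm, Bm_zero, ← hs, Polynomial.eval_zero] at this
  exact pow_ne_zero 2 s0 this.symm

/-- One of the two points is not isotropic. -/
lemma zero_one (c : Bool) {s : Ω} (hs : s ^ 2 = Dt (A.map (algebraMap C Ω)) l) (s0 : s ≠ 0)
    (he : ee (hv c (A.map (algebraMap C Ω)) l s) (hv c (A.map (algebraMap C Ω)) l s) ≠ 0)
    (hy : y ^ 2 = Dt (Bm (A.map (algebraMap C L)) x) (algebraMap Ω L ∘ l)) :
    ∃ z, z ^ 2 = Dt (Bm (A.map (algebraMap C L)) x) (algebraMap Ω L ∘ l) ∧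
      ee (hv c (Bm (A.map (algebraMap C L)) x) (algebraMap Ω L ∘ l) z)
        (hv c (Bm (A.map (algebraMap C L)) x) (algebraMap Ω L ∘ l) z) ≠ 0 := by
  obtain ⟨d, _, _, p, q, h⟩ := curve A c 0
  by_contra! hn
  have h1 := (h L _ x y _ hy rfl).1
  have h2 := (h L _ x (-y) _ (by rwa [neg_sq]) rfl).1
  have h3 := (h Ω l 0 s _ (by rwa [Bm_zero]) rfl).1
  rw [hn _ hy, zero_pow d.succ_ne_zero, ← aeval_pm, ← aeval_pm] at h1
  rw [hn _ (by rwa [neg_sq]), zero_pow d.succ_ne_zero, ← aeval_pm, ← aeval_pm] at h2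
  rw [transcendental_iff.1 hx (pm l p) (mul_left_cancel₀ two_ne_zero (by
      linear_combination h1 + h2)), transcendental_iff.1 hx (pm l q) (mul_left_cancel₀
      (mul_ne_zero two_ne_zero (root_ne hx hs s0 hy)) (by linear_combination h1 - h2)),
    Bm_zero] at h3
  exact he (by simpa using h3.symm)

omit [CharZero L] in
/-- Both points are not isotropic. -/
lemma zero_two [IsAlgClosed Ω] [CharZero Ω] (hq : Qd m) (hA : A.IsSymm) (hm : m.f = a • quad A)
    (hl : Gen C l) (c : Bool)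
    (hy : y ^ 2 = Dt (Bm (A.map (algebraMap C L)) x) (algebraMap Ω L ∘ l)) :
    ee (hv c (Bm (A.map (algebraMap C L)) x) (algebraMap Ω L ∘ l) y)
      (hv c (Bm (A.map (algebraMap C L)) x) (algebraMap Ω L ∘ l) y) ≠ 0 := fun e => by
  obtain ⟨d, _, _, p, q, h⟩ := curve A c 0
  obtain ⟨s, hs⟩ := IsAlgClosed.exists_pow_nat_eq (Dt (A.map (algebraMap C Ω)) l) two_pos
  have hs' : (-s) ^ 2 = _ := (neg_sq s).trans hs
  have h1 := (h L _ x y _ hy rfl).1
  have h2 := (h Ω l 0 s _ (by rwa [Bm_zero]) rfl).1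
  have h3 := (h Ω l 0 (-s) _ (by rwa [Bm_zero]) rfl).1
  rw [Bm_zero] at h2 h3
  rw [e, zero_pow d.succ_ne_zero, ← aeval_pm, ← aeval_pm] at h1
  rw [← eval_DU, ← aeval_pm] at hy
  have h4 := congrArg (Polynomial.eval 0) (transcendental_iff.1 hx
    (pm l p ^ 2 - pm l q ^ 2 * pm l (DU A)) (by
      simp only [map_sub, map_mul, map_pow, ← hy]
      linear_combination (Polynomial.aeval x (pm l p) - Polynomial.aeval x (pm l q) * y) * h1))
  simp only [Polynomial.eval_sub, Polynomial.eval_mul, Polynomial.eval_pow, eval_DU, Bm_zero, ← hs,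
    Polynomial.eval_zero] at h4
  refine mul_ne_zero (pow_ne_zero (d + 1) (gen_ee hq hA hm hl c hs))
    (pow_ne_zero (d + 1) (gen_ee hq hA hm hl c hs')) ?_
  rw [← h2, ← h3]
  linear_combination h4

/-- Reflections of a generic edge in a generic member of the pencil are generic. -/
lemma gen_red (hA : A.IsSymm) (hl : Gen C l) (y0 : y ≠ 0)
    (E : Eig (Bm (A.map (algebraMap C L)) x) (algebraMap Ω L ∘ l) y α β) {h : Option ι → L}
    (eh : h = Bm (A.map (algebraMap C L)) x *ᵥ Y (algebraMap Ω L ∘ l) α β) (he : ee h h ≠ 0) :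
    Gen C (red h (algebraMap Ω L ∘ l)) := by
  have h1 := (H88.rk_le (cl_red (Bm_symm (hA.map _) (dl_ne hx A)) y0 E eh he)).trans
    (H88.rk_insert_le _ _)
  rw [rk_trans hx, ENat.add_le_add_iff_right ENat.one_ne_top] at h1
  exact H32.gen_iff_rk.2 ((H32.gen_iff_rk.1 hl).trans h1)

/-- The function on the hyperelliptic curve is invariant. -/
lemma inv_red [IsAlgClosed Ω] [CharZero Ω] (hq : Qd m) (hA : A.IsSymm) (hm : m.f = a • quad A)
    {H : MvPolynomial (ι ⊕ ι) C}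
    (hH : ∀ (l l' : ι ⊕ ι → L) t, St m l t l' → ev l' H = ev l H) (hl : Gen C l) {t : Ω}
    {l' : ι ⊕ ι → Ω} (S : St m l t l') (c : Bool)
    (hy : y ^ 2 = Dt (Bm (A.map (algebraMap C L)) x) (algebraMap Ω L ∘ l)) :
    Gen C (red (hv c (Bm (A.map (algebraMap C L)) x) (algebraMap Ω L ∘ l) y) (algebraMap Ω L ∘ l)) ∧
    y ^ 2 = Dt (Bm (A.map (algebraMap C L)) x) (algebraMap Ω L ∘ l') ∧
    ev (red (hv c (Bm (A.map (algebraMap C L)) x) (algebraMap Ω L ∘ l') y) (algebraMap Ω L ∘ l')) H =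
      ev (red (hv c (Bm (A.map (algebraMap C L)) x) (algebraMap Ω L ∘ l) y) (algebraMap Ω L ∘ l))
        H := by
  obtain ⟨s, s0, E0, e0, rfl⟩ := eig_of_st hA hm S rfl
  have y0 := root_ne hx (E0.sq (hA.map _)) s0 hy
  have hD := dl_ne hx A
  have hB := Bm_symm (hA.map _) hD
  have e1 := zero_two hx hq hA hm hl c hy
  have E1 := eig_al hB hy (ne_of_ee e1)
  have g1 := gen_red hx hA hl y0 E1 rfl e1
  have E2 := E0.map (algebraMap Ω L) (algebraMap Ω L).injective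
  have e2 := (map_ne_zero (algebraMap Ω L)).2 e0
  rw [← ee_map, ← mulVec_map, ← Y_map] at e2
  have e3 := red_map (algebraMap Ω L) (A.map (algebraMap C Ω) *ᵥ Y l 1 t) l
  rw [← mulVec_map, ← Y_map] at e3
  rw [map_map] at E2 e2 e3
  obtain ⟨α0, β0, α, β, D, h', k', F0, F1, f0, f1, f2, f3, f4⟩ := square (hA.map _) hD
    (fun e => hx (e ▸ isAlgebraic_zero)) E2 E1 rfl rfl e2 e1
  obtain ⟨b1, b2, b3⟩ := F0.gen hq hA hm g1 f0
  rw [e3] at F1 f1 f4
  have hy' := F1.sq hB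
  refine ⟨g1, hy', ?_⟩
  rw [(F1.hv hB y0 (ne_of_ee (zero_two hx hq hA hm (S.gen hl) c hy')) _).1, ← f1,
    f4 (left_ne_zero_of_mul (f2 ▸ b3))]
  exact hH _ _ _ (F0.st hA hm b2 b1 f0 b3)

end Trans

/-- The parameter and the square root of a zero can be fixed. -/
theorem gen [IsAlgClosed Ω] [CharZero Ω] (hq : Qd m) (hA : A.IsSymm) (hm : m.f = a • quad A)
    {H : MvPolynomial (ι ⊕ ι) C} (H0 : H ≠ 0) (hH : ∀ (L : Type) [Field L] [Algebra C L]
      (l l' : ι ⊕ ι → L) t, St m l t l' → ev l' H = ev l H) {l l' : ι ⊕ ι → Ω} (hl : Gen C l)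
    {t : Ω} (S : St m l t l') (σ : Ω ≃ₐ[C] Ω) (hσ : mp σ l = l') (K : IntermediateField C Ω)
    (hK : ∀ i, l i ∈ K) (uni : ∀ z ∈ K, ∀ N, 0 < N → (σ ^ N) z = z → σ z = z) {μ s α β : Ω}
    (hD : Dl (A.map (algebraMap C Ω)) μ ≠ 0) (E : Eig (Bm (A.map (algebraMap C Ω)) μ) l s α β)
    (hs : s ≠ 0) {h : Option ι → Ω} (eh : h = Bm (A.map (algebraMap C Ω)) μ *ᵥ Y l α β)
    (he : ee h h ≠ 0) (h0 : ev (red h l) H = 0) :
    ∃ ρ : Ω ≃ₐ[C] Ω, mp ρ l = l' ∧ ρ μ = μ ∧ ρ s = s := by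
  have hB := Bm_symm (hA.map _) hD
  obtain ⟨c, hc⟩ := ex_al (Bm (A.map (algebraMap C Ω)) μ) l hs
  obtain ⟨d, n0, n1, e0, e1, hh⟩ := curve A c H
  obtain ⟨L, _, _, _, v, hv⟩ := H96.Pv.exists_ext Ω Unit
  let _ : Algebra C L := ((algebraMap Ω L).comp (algebraMap C Ω)).toAlgebra
  have : IsScalarTower C Ω L := IsScalarTower.of_algebraMap_eq fun _ => rfl
  have : CharZero L := charZero_of_injective_algebraMap (algebraMap Ω L).injective
  have hx := hv.1.transcendental ()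
  obtain ⟨y, hy⟩ := IsAlgClosed.exists_pow_nat_eq
    (Dt (Bm (A.map (algebraMap C L)) (v ())) (algebraMap Ω L ∘ l)) two_pos
  obtain ⟨s1, s0, E0, -, -⟩ := eig_of_st hA hm S rfl
  let lK : ι ⊕ ι → K := fun i => ⟨l i, hK i⟩
  have f1 : ∀ p, (pm lK p).map K.val.toRingHom = pm l p := fun p => pm_map _ _ p
  have f2 : ∀ p, (pm lK p).map ((σ : Ω →ₐ[C] Ω).comp K.val).toRingHom = pm l' p :=
    fun p => (pm_map _ _ p).trans (hσ ▸ rfl)
  have f3 : pm l' (DU A) = pm l (DU A) := transcendental_iff_injective.1 hx (by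
    rw [aeval_pm, aeval_pm, eval_DU, eval_DU, ← hy,
      (inv_red hx hq hA hm (hH L) hl S c hy).2.1])
  have f4 := (E.sq hB).trans (eval_DU A l μ).symm
  obtain ⟨r1, r2⟩ := E.hv hB hs hc l
  rw [← eh] at r1 r2
  obtain ⟨g1, g2⟩ := hh Ω l μ s _ (E.sq hB) rfl
  obtain ⟨P, P0, P1, P2⟩ := alg K.val.toRingHom ((σ : Ω →ₐ[C] Ω).comp K.val).toRingHom hx
    (root_ne hx (E0.sq (hA.map _)) s0 hy) (D := pm lK (DU A)) (n0 := pm lK n0) (n1 := pm lK n1)
    (e0 := pm lK e0) (e1 := pm lK e1) (μ := μ) (s := s) (by rw [f1, f2, f3])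
    (by rw [f1, aeval_pm, eval_DU, hy]) (fun z hz => by
      rw [f1, aeval_pm, eval_DU] at hz
      obtain ⟨a1, a2, a3⟩ := inv_red hx hq hA hm (hH L) hl S c hz
      have a4 := zero_two hx hq hA hm hl c hz
      have a5 := zero_two hx hq hA hm (S.gen hl) c a2
      obtain ⟨b1, b2⟩ := hh L _ _ z _ hz rfl
      obtain ⟨b3, b4⟩ := hh L _ _ z _ a2 rfl
      simp only [f1, f2, aeval_pm, b1, b2 a4, b3, b4 a5, a3]
      exact ⟨mul_ne_zero (fun e => H0 (a1 _ e)) (pow_ne_zero _ a4), pow_ne_zero _ a4,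
        pow_ne_zero _ a5, by ring⟩)
    (by rw [f1, f4]) (by rw [f1, f1, g2 (r2.2 he), r1, h0, zero_mul])
    (by rw [f1, f1, g1]; exact pow_ne_zero _ (r2.2 he))
  have key : ∀ p : Polynomial K, p.map ((σ : Ω →ₐ[C] Ω).comp K.val).toRingHom =
      p.map K.val.toRingHom → ∀ i, (p.map K.val.toRingHom).coeff i ∈
      cl C ((K ⊓ fix σ : IntermediateField C Ω) : Set Ω) := fun p hp i => by
    have := congrArg (Polynomial.coeff · i) hp
    simp only [Polynomial.coeff_map] at this ⊢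
    exact H88.subset_cl _ ⟨(p.coeff i).2, (mem_fix σ).2 this⟩
  have m1 := H88.mem_cl_of_root ((Polynomial.map_ne_zero_iff K.val.toRingHom.injective).2 P0)
    (key P P1) P2
  obtain ⟨ρ, a1, a2⟩ := disjoint σ K uni m1 (sq_mem (s := s) (by
    rw [f4, ← f1]
    exact eval_mem (key _ (by rw [f1, f2, f3])) m1))
  exact ⟨ρ, hσ ▸ funext fun i => a1 _ (hK i), a2⟩

end Pool.Agent.MP_249f74_an.H23
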