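import Pool.Agent.MP_249f74_an.H23.Defs

/-!
The reflections in two members of a confocal pencil can be exchanged.
-/

open Matrix hiding J vec

namespace Pool.Agent.MP_249f74_an.H23

open H17.Cm (hat vec sp J symm_dot sp_add sp_smul)
open H32 (pos dir)

variable {ι L : Type} [Fintype ι] [DecidableEq ι] [Field L]
  {A B : Matrix (Option ι) (Option ι) L} {μ s s0 α β α0 β0 g d : L} {l : ι ⊕ ι → L}
  {h k : Option ι → L}

omit [DecidableEq ι] in
lemma ee_add (h k : Option ι → L) (g : L) (Z : Option ι → L) :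
    ee (k + g • h) Z = ee k Z + g * ee h Z := by simp [ee]

omit [DecidableEq ι] in
lemma ee_sq (e : g * ee h h + d * ee k k = -2 * ee h k) :
    ee (k + g • h) (k + g • h) = (1 - g * d) * ee k k := by
  rw [ee_add, ee_comm k, ee_comm h, ee_add, ee_add, ee_comm k h]
  linear_combination g * e

lemma sr_sq (e : g * ee h h + d * ee k k = -2 * ee h k) (hh : ee h h ≠ 0) (hk : ee k k ≠ 0)
    (hD : 1 - g * d ≠ 0) (Z : Option ι → L) :
    sr (k + g • h) (sr h Z) = sr (h + d • k) (sr k Z) := by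
  have e' : d * ee k k + g * ee h h = -2 * ee k h := by rw [ee_comm k h, ← e, add_comm]
  have key : ∀ {h k : Option ι → L} {g d : L}, g * ee h h + d * ee k k = -2 * ee h k →
      ee h h ≠ 0 → ee k k ≠ 0 → 1 - g * d ≠ 0 → sr (k + g • h) (sr h Z) = Z -
        (2 * (h ⬝ᵥ Z / ee h h + g * (k ⬝ᵥ Z) / ee k k) / (1 - g * d)) • vec (sp h) -
        (2 * (k ⬝ᵥ Z / ee k k + d * (h ⬝ᵥ Z) / ee h h) / (1 - g * d)) • vec (sp k) := by
    intro h k g d e hh hk hD
    have e1 : (k + g • h) ⬝ᵥ sr h Z = k ⬝ᵥ Z + h ⬝ᵥ Z * d * ee k k / ee h h := by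
      rw [dot_sr, ee_add, add_dotProduct, smul_dotProduct, ee_comm k h, smul_eq_mul]
      field_simp
      linear_combination -(h ⬝ᵥ Z) * e
    rw [sr, e1, ee_sq e, sr, sp_add, sp_smul, H17.Cm.vec_add, H17.Cm.vec_smul]
    obtain ⟨D, hD'⟩ : ∃ D, D = 1 - g * d := ⟨_, rfl⟩
    rw [← hD'] at hD ⊢
    match_scalars <;> field_simp
    rw [hD']; ring
  rw [key e hh hk hD, key e' hk hh (by rwa [mul_comm]), mul_comm d g]
  abel

omit [DecidableEq ι] in
lemma Eig.dot (E : Eig B l s α β) (α0 β0 : L) :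
    (B *ᵥ Y l α β) ⬝ᵥ Y l α0 β0 = s * (α * β0 - α0 * β) := by
  conv_lhs => rhs; rw [Y]
  rw [dotProduct_add, dotProduct_smul, dotProduct_smul, E.ha, E.hb, smul_eq_mul, smul_eq_mul]
  ring

/-- One half of the square. -/
lemma half (E0 : Eig A l s0 α0 β0) (E : Eig B l s α β) (eh : h = A *ᵥ Y l α0 β0)
    (ek : k = B *ᵥ Y l α β) (hh : ee h h ≠ 0) {c c' : L}
    (hc : c * ee h h = c' * (α0 * β - α * β0))
    (e1 : B *ᵥ (sr h (Y l α β) + c • Y l α0 β0) = k + g • h)
    (e2 : 2 * s0 * ee k h = -(g * s0 + c * s) * ee h h) :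
    B *ᵥ Y (red h l) (α + c * α0) (β + c * β0) = k + g • h ∧
      Eig B (red h l) s (α + c * α0) (β + c * β0) := by
  have e3 : B *ᵥ Y (red h l) (α + c * α0) (β + c * β0) = k + g • h := by
    have : Y l (α + c * α0) (β + c * β0) = Y l α β + c • Y l α0 β0 := by
      simp only [Y]; module
    rw [Y_red, this, sr_add, sr_smul, sr_of_dot (X := Y l α0 β0) (eh ▸ E0.zero), e1]
  refine ⟨e3, ?_, ?_, ?_⟩
  · by_contra! hn
    have h1 : α0 * β - α * β0 = 0 := by linear_combination α0 * hn.2 - β0 * hn.1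
    rw [h1, mul_zero, mul_eq_zero, or_iff_left hh] at hc
    simp only [hc, zero_mul, add_zero] at hn
    exact E.ne.elim (· hn.1) (· hn.2)
  · rw [e3, vec_red, dot_sr, ee_add, add_dotProduct, smul_dotProduct, smul_eq_mul]
    have h1 := eh ▸ E0.hb
    have h2 := ek ▸ E.hb
    rw [h1, h2]
    field_simp
    linear_combination -α0 * e2
  · rw [e3, hat_red, dot_sr, ee_add, add_dotProduct, smul_dotProduct, smul_eq_mul]
    have h1 := eh ▸ E0.ha
    have h2 := ek ▸ E.ha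
    rw [h1, h2]
    field_simp
    linear_combination β0 * e2

/-- The square of reflections. -/
theorem square (hA : A.IsSymm) (hD : Dl A μ ≠ 0) (hμ : μ ≠ 0) (E0 : Eig A l s0 α0 β0)
    (E : Eig (Bm A μ) l s α β) (eh : h = A *ᵥ Y l α0 β0) (ek : k = Bm A μ *ᵥ Y l α β)
    (hh : ee h h ≠ 0) (hk : ee k k ≠ 0) :
    ∃ (α0' β0' α' β' D : L) (h' k' : Option ι → L), Eig A (red k l) s0 α0' β0' ∧
      Eig (Bm A μ) (red h l) s α' β' ∧ h' = A *ᵥ Y (red k l) α0' β0' ∧
      k' = Bm A μ *ᵥ Y (red h l) α' β' ∧ ee h' h' = D * ee h h ∧ ee k' k' = D * ee k k ∧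
      (D ≠ 0 → red k' (red h l) = red h' (red k l)) := by
  obtain ⟨w, hw⟩ : ∃ w, w = α0 * β - α * β0 := ⟨_, rfl⟩
  have a1 : h ⬝ᵥ Y l α β = s0 * w := by rw [eh, E0.dot, hw]
  have a2 : k ⬝ᵥ Y l α0 β0 = -(s * w) := by rw [ek, E.dot, hw]; ring
  have a3 : μ * ee h k = -(w * (s + Dl A μ * s0)) := by
    have := congrArg (Y l α β ⬝ᵥ ·) (Bm_vec A μ (Y l α0 β0))
    simp only [← eh] at this
    rw [symm_dot (Bm_symm hA hD), ← ek, dotProduct_comm, dotProduct_sub, dotProduct_smul,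
      dot_vec_sp, a2, dotProduct_smul, dotProduct_comm _ h, a1, ee_comm] at this
    simp only [smul_eq_mul] at this
    linear_combination -this
  obtain ⟨c, hc⟩ : ∃ c, c = 2 * (s0 * w) / (μ * ee h h) := ⟨_, rfl⟩
  obtain ⟨d, hd⟩ : ∃ d, d = 2 * (s * w) / (μ * ee k k) := ⟨_, rfl⟩
  have a4 : ee h k = -(w * (s + Dl A μ * s0)) / μ := by rw [← a3]; field_simp
  have a5 : c * Dl A μ * ee h h + d * ee k k = -2 * ee h k := by
    rw [a4, hc, hd]; field_simp
    ring
  obtain ⟨b1, b2⟩ := half (g := c * Dl A μ) (c := c) (c' := 2 * s0 / μ) E0 E eh ek hh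
    (by rw [hc, ← hw]; field_simp) (by
      have := Bm_vec A μ (Y l α0 β0)
      rw [← eh, mulVec_sub, mulVec_smul] at this
      have e : 2 * (s0 * w) / ee h h = c * μ := by rw [hc]; field_simp
      rw [sr, a1, mulVec_add, mulVec_sub, mulVec_smul, mulVec_smul, ← ek, e]
      linear_combination (norm := module) c • this)
    (by rw [ee_comm k, a4, hc]; field_simp; ring)
  obtain ⟨b3, b4⟩ := half (g := d) (c := d * Dl A μ) (c' := -(2 * s * Dl A μ / μ)) E E0 ek eh hk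
    (by rw [hd, hw]; field_simp; ring) (by
      have := A_vec A μ (Y l α β)
      rw [← ek, mulVec_add, mulVec_smul, mulVec_smul] at this
      have e : 2 * -(s * w) / ee k k = -(d * μ) := by rw [hd]; field_simp
      rw [sr, a2, mulVec_add, mulVec_sub, mulVec_smul, mulVec_smul, ← eh, e]
      linear_combination (norm := module) d • this)
    (by rw [a4, hd]; field_simp)
  refine ⟨_, _, _, _, 1 - c * Dl A μ * d, _, _, b4, b2, b3.symm, b1.symm, ?_, ee_sq a5,
    fun hD => edge_ext ?_ ?_⟩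
  · rw [mul_comm _ d]
    exact ee_sq (by rw [ee_comm k h, ← a5, add_comm])
  · simp only [hat_red, sr_sq a5 hh hk hD]
  · simp only [vec_red, sr_sq a5 hh hk hD]

end Pool.Agent.MP_249f74_an.H23
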