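import Pool.Agent.MP_249f74_an.H23.Sq

/-!
Universal formulas for the reflection of an edge in a member of a confocal pencil.
-/

open Matrix hiding J vec

namespace Pool.Agent.MP_249f74_an.H23

open H17.Cm (hat vec sp J symm_dot)
open H32 (pos dir)
open H42 (ev)
open H88 (cl)

variable {ι : Type} [Fintype ι] [DecidableEq ι]

section Ring

variable {T T' : Type} [CommRing T] [CommRing T'] (φ : T →+* T') (c : Bool)
  (B : Matrix (Option ι) (Option ι) T) (l : ι ⊕ ι → T) (s : T)

/-- The first coordinate of the point with the square root `s`. -/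
def al : T := if c then vec (dir l) ⬝ᵥ B *ᵥ vec (dir l) else s + hat (pos l) ⬝ᵥ B *ᵥ vec (dir l)

/-- The second coordinate of the point with the square root `s`. -/
def be : T :=
  if c then s - hat (pos l) ⬝ᵥ B *ᵥ vec (dir l) else -(hat (pos l) ⬝ᵥ B *ᵥ hat (pos l))

/-- The tangent hyperplane at the point with the square root `s`. -/
def hv : Option ι → T := B *ᵥ Y l (al c B l s) (be c B l s)

omit [DecidableEq ι]

lemma al_map : al c (B.map φ) (φ ∘ l) (φ s) = φ (al c B l s) := by
  cases c <;> simp [al, hat_map, vec_map, mulVec_map, dot_map]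

lemma be_map : be c (B.map φ) (φ ∘ l) (φ s) = φ (be c B l s) := by
  cases c <;> simp [be, hat_map, vec_map, mulVec_map, dot_map]

lemma hv_map : hv c (B.map φ) (φ ∘ l) (φ s) = φ ∘ hv c B l s := by
  rw [hv, al_map, be_map, Y_map, mulVec_map, hv]

variable {c B l s}

lemma eig_al (hB : B.IsSymm) (hs : s ^ 2 = Dt B l) (h : al c B l s ≠ 0 ∨ be c B l s ≠ 0) :
    Eig B l s (al c B l s) (be c B l s) := by
  rw [Dt] at hs
  refine ⟨h, ?_, ?_⟩ <;> rw [dot_Y] <;> cases c <;> simp only [al, be, if_true, if_false,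
    Bool.false_eq_true, symm_dot hB (vec (dir l)) (hat (pos l))]
  · linear_combination -hs
  · ring
  · ring
  · linear_combination hs

lemma ne_of_ee (h : ee (hv c B l s) (hv c B l s) ≠ 0) : al c B l s ≠ 0 ∨ be c B l s ≠ 0 := by
  by_contra! hn
  simp [hv, hn.1, hn.2, Y, ee, sp, dotProduct] at h

end Ring

section Field

variable {L : Type} [Field L] [CharZero L] {B : Matrix (Option ι) (Option ι) L} {l : ι ⊕ ι → L}
  {s α β : L} {c : Bool}

omit [DecidableEq ι] in
lemma ex_al (B : Matrix (Option ι) (Option ι) L) (l : ι ⊕ ι → L) (hs : s ≠ 0) :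
    ∃ c, al c B l s ≠ 0 ∨ be c B l s ≠ 0 := by
  by_contra! hn
  have h1 := (hn true).2
  have h2 := (hn false).1
  simp only [al, be, if_true, if_false, Bool.false_eq_true] at h1 h2
  exact mul_ne_zero two_ne_zero hs (by linear_combination h1 + h2)

lemma Eig.hv (hB : B.IsSymm) (hs : s ≠ 0) (E : Eig B l s α β)
    (h : al c B l s ≠ 0 ∨ be c B l s ≠ 0) (l' : ι ⊕ ι → L) :
    H23.red (hv c B l s) l' = H23.red (B *ᵥ Y l α β) l' ∧
      (ee (hv c B l s) (hv c B l s) ≠ 0 ↔ ee (B *ᵥ Y l α β) (B *ᵥ Y l α β) ≠ 0) := by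
  obtain ⟨r, r0, h1, h2⟩ := E.uniq hB hs (eig_al hB (E.sq hB) h)
  rw [H23.hv, h1, h2, Y_smul, mulVec_smul, smul_red r0]
  simp [ee, r0]

end Field

section Univ

variable {C κ : Type} [Field C]

/-- The values of the variables. -/
def val {T : Type} (l : κ → T) (μ s : T) : Option (Option κ) → T :=
  fun o => o.elim s fun o => o.elim μ l

/-- Polynomials in the parameter of the pencil. -/
noncomputable def pm {T : Type} [CommRing T] [Algebra C T] (l : κ → T)
    (p : Polynomial (MvPolynomial κ C)) : Polynomial T :=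
  p.map (MvPolynomial.aeval l : MvPolynomial κ C →ₐ[C] T).toRingHom

lemma pm_map {T T' : Type} [CommRing T] [Algebra C T] [CommRing T'] [Algebra C T']
    (φ : T →ₐ[C] T') (l : κ → T) (p : Polynomial (MvPolynomial κ C)) :
    (pm l p).map φ.toRingHom = pm (φ ∘ l) p := by
  rw [pm, pm, Polynomial.map_map]
  congr 1
  exact congrArg AlgHom.toRingHom (MvPolynomial.comp_aeval l φ)

lemma aeval_pm {T T' : Type} [CommRing T] [Algebra C T] [CommRing T'] [Algebra C T'] [Algebra T T']
    [IsScalarTower C T T'] (l : κ → T) (x : T') (p : Polynomial (MvPolynomial κ C)) :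
    Polynomial.aeval x (pm l p) = (pm (algebraMap T T' ∘ l) p).eval x := by
  rw [← Polynomial.eval_map_algebraMap]
  exact congrArg _ (pm_map (IsScalarTower.toAlgHom C T T') l p)

/-- Reduction modulo the equation of the square root. -/
lemma dec (D : Polynomial (MvPolynomial κ C)) (P : MvPolynomial (Option (Option κ)) C) :
    ∃ p q : Polynomial (MvPolynomial κ C), ∀ (T : Type) [CommRing T] [Algebra C T] (l : κ → T)
      (μ s : T), s ^ 2 = (pm l D).eval μ →
      MvPolynomial.aeval (val l μ s) P = (pm l p).eval μ + (pm l q).eval μ * s := by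
  induction P using MvPolynomial.induction_on with
  | C a => exact ⟨Polynomial.C (MvPolynomial.C a), 0, fun T _ _ l μ s _ => by simp [pm]⟩
  | add P Q hP hQ =>
    obtain ⟨p, q, h⟩ := hP
    obtain ⟨p', q', h'⟩ := hQ
    refine ⟨p + p', q + q', fun T _ _ l μ s e => ?_⟩
    rw [map_add, h T l μ s e, h' T l μ s e]
    simp only [pm, Polynomial.map_add, Polynomial.eval_add]
    ring
  | mul_X P i hP =>
    obtain ⟨p, q, h⟩ := hP
    rcases i with _ | _ | i
    · refine ⟨q * D, p, fun T _ _ l μ s e => ?_⟩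
      rw [map_mul, h T l μ s e]
      simp only [pm, Polynomial.map_mul, Polynomial.eval_mul, MvPolynomial.aeval_X, val,
        Option.elim] at e ⊢
      rw [← e]
      ring
    · refine ⟨p * .X, q * .X, fun T _ _ l μ s e => ?_⟩
      rw [map_mul, h T l μ s e]
      simp [pm, val]
      ring
    · refine ⟨p * .C (.X i), q * .C (.X i), fun T _ _ l μ s e => ?_⟩
      rw [map_mul, h T l μ s e]
      simp [pm, val]
      ring

omit [DecidableEq ι] in
/-- Numerators. -/
lemma num {W : Type} [CommRing W] [Algebra C W] (h : Option ι → W) (l : ι ⊕ ι → W)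
    (G : MvPolynomial (ι ⊕ ι) C) : ∃ (d : ℕ) (N : W), ∀ (L : Type) [Field L] [Algebra C L]
      (φ : W →ₐ[C] L), φ (ee h h) ≠ 0 → φ N = ev (red (φ ∘ h) (φ ∘ l)) G * φ (ee h h) ^ d := by
  induction G using MvPolynomial.induction_on with
  | C a => exact ⟨0, algebraMap C W a, fun L _ _ φ _ => by simp [ev]⟩
  | add P Q hP hQ =>
    obtain ⟨d, N, h1⟩ := hP
    obtain ⟨d', N', h2⟩ := hQ
    refine ⟨d + d', N * ee h h ^ d' + N' * ee h h ^ d, fun L _ _ φ e => ?_⟩
    simp only [map_add, map_mul, map_pow, h1 L φ e, h2 L φ e]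
    ring
  | mul_X P i hP =>
    obtain ⟨d, N, h1⟩ := hP
    have e1 := fun (L : Type) [Field L] [Algebra C L] (φ : W →ₐ[C] L) =>
      ee_map φ.toRingHom h h
    have e2 := fun (L : Type) [Field L] [Algebra C L] (φ : W →ₐ[C] L) =>
      dot_map φ.toRingHom h
    have e3 := fun (L : Type) [Field L] [Algebra C L] (φ : W →ₐ[C] L) => hat_map φ.toRingHom l
    have e4 := fun (L : Type) [Field L] [Algebra C L] (φ : W →ₐ[C] L) => vec_map φ.toRingHom l
    simp only [AlgHom.toRingHom_eq_coe, RingHom.coe_coe] at e1 e2 e3 e4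
    rcases i with i | i
    · refine ⟨d + 1, N * (l (.inl i) * ee h h - 2 * (h ⬝ᵥ hat (pos l)) * h (some i)),
        fun L _ _ φ e => ?_⟩
      simp only [map_sub, map_mul, map_ofNat, h1 L φ e, ev, MvPolynomial.aeval_X, red, sr,
        Sum.elim_inl, sp, e1, e2, e3, Pi.sub_apply, Pi.smul_apply, smul_eq_mul, vec, hat, pos,
        Option.elim, Function.comp]
      field_simp
      ring
    · refine ⟨d + 1, N * (l (.inr i) * ee h h - 2 * (h ⬝ᵥ vec (dir l)) * h (some i)),
        fun L _ _ φ e => ?_⟩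
      simp only [map_sub, map_mul, map_ofNat, h1 L φ e, ev, MvPolynomial.aeval_X, red, sr,
        Sum.elim_inr, sp, e1, e2, e4, Pi.sub_apply, Pi.smul_apply, smul_eq_mul, vec, dir,
        Option.elim, Function.comp]
      field_simp
      ring

variable (A : Matrix (Option ι) (Option ι) C) (c : Bool)

/-- The universal discriminant. -/
noncomputable def DU : Polynomial (MvPolynomial (ι ⊕ ι) C) :=
  Dt (Bm (A.map (algebraMap C _)) .X) fun i => .C (.X i)

/-- The universal tangent hyperplane. -/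
noncomputable def hU : Option ι → MvPolynomial (Option (Option (ι ⊕ ι))) C :=
  hv c (Bm (A.map (algebraMap C _)) (.X (some none))) (fun i => .X (some (some i))) (.X none)

variable {T : Type} [CommRing T] [Algebra C T] (l : ι ⊕ ι → T) (μ s : T)

lemma eval_DU : (pm l (DU A)).eval μ = Dt (Bm (A.map (algebraMap C T)) μ) l := by
  have := Dt_map ((Polynomial.evalRingHom μ).comp (Polynomial.mapRingHom
    (MvPolynomial.aeval l : MvPolynomial _ C →ₐ[C] T).toRingHom))
    (Bm (A.map (algebraMap C _)) .X) fun i => .C (.X i)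
  rw [Bm_map, Matrix.map_map] at this
  simpa [Function.comp_def, pm, DU] using this.symm

lemma aeval_hU : MvPolynomial.aeval (val l μ s) ∘ hU A c =
    hv c (Bm (A.map (algebraMap C T)) μ) l s := by
  have := hv_map (MvPolynomial.aeval (val l μ s) : MvPolynomial _ C →ₐ[C] T).toRingHom c
    (Bm (A.map (algebraMap C _)) (.X (some none))) (fun i => .X (some (some i))) (.X none)
  rw [Bm_map, Matrix.map_map] at this
  simpa [Function.comp_def, val, hU] using this.symm

lemma aeval_ee : MvPolynomial.aeval (val l μ s) (ee (hU A c) (hU A c)) =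
    ee (hv c (Bm (A.map (algebraMap C T)) μ) l s) (hv c (Bm (A.map (algebraMap C T)) μ) l s) := by
  rw [← aeval_hU]
  exact (ee_map (MvPolynomial.aeval (val l μ s) : MvPolynomial _ C →ₐ[C] T).toRingHom _ _).symm

/-- The value of a polynomial at the reflected edge as a function on a hyperelliptic curve. -/
lemma curve (G : MvPolynomial (ι ⊕ ι) C) :
    ∃ (d : ℕ) (n0 n1 e0 e1 : Polynomial (MvPolynomial (ι ⊕ ι) C)), ∀ (L : Type) [Field L]
      [Algebra C L] (l : ι ⊕ ι → L) (μ s : L) (h : Option ι → L),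
      s ^ 2 = Dt (Bm (A.map (algebraMap C L)) μ) l → h = hv c (Bm (A.map (algebraMap C L)) μ) l s →
      (pm l e0).eval μ + (pm l e1).eval μ * s = ee h h ^ (d + 1) ∧ (ee h h ≠ 0 →
      (pm l n0).eval μ + (pm l n1).eval μ * s = ev (red h l) G * ee h h ^ (d + 1)) := by
  obtain ⟨d, N, h1⟩ := num (hU A c) (fun i => .X (some (some i))) G
  obtain ⟨n0, n1, h2⟩ := dec (DU A) (N * ee (hU A c) (hU A c))
  obtain ⟨e0, e1, h3⟩ := dec (DU A) (ee (hU A c) (hU A c) ^ (d + 1))
  refine ⟨d, n0, n1, e0, e1, fun L _ _ l μ s h hs eh => ?_⟩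
  rw [← eval_DU] at hs
  rw [← h2 L l μ s hs, ← h3 L l μ s hs, map_pow, map_mul, aeval_ee, ← eh]
  refine ⟨rfl, fun h0 => ?_⟩
  have := h1 L (MvPolynomial.aeval (val l μ s)) (by rwa [aeval_ee, ← eh])
  have e : MvPolynomial.aeval (R := C) (val l μ s) ∘ (fun i => .X (some (some i))) = l := by
    ext i; simp [val]
  rw [this, aeval_ee, aeval_hU, ← eh, mul_assoc, ← pow_succ, e]

end Univ

section Rank

variable {C L : Type} [Field C] [Field L] [Algebra C L] [CharZero L]
  {A : Matrix (Option ι) (Option ι) C} {l : ι ⊕ ι → L} {μ s α β : L} {k : Option ι → L}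

/-- The reflected edge is algebraic over the edge and the parameter. -/
lemma red_cl (hB : (Bm (A.map (algebraMap C L)) μ).IsSymm) (hs : s ≠ 0)
    (E : Eig (Bm (A.map (algebraMap C L)) μ) l s α β)
    (ek : k = Bm (A.map (algebraMap C L)) μ *ᵥ Y l α β) :
    Set.range (red k l) ⊆ cl C (insert μ (Set.range l)) := by
  obtain ⟨c, hc⟩ := ex_al (Bm (A.map (algebraMap C L)) μ) l hs
  obtain ⟨F, hF⟩ : ∃ F, F = cl C (insert μ (Set.range l)) := ⟨_, rfl⟩
  have h0 : ∀ i, l i ∈ F := fun i => hF ▸ H88.subset_cl _ (.inr ⟨i, rfl⟩)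
  have h1 : μ ∈ F := hF ▸ H88.subset_cl _ (.inl rfl)
  have h2 : s ∈ F := by
    have e := (E.sq hB).trans (eval_DU A l μ).symm
    rw [Polynomial.eval_eq_sum_range] at e
    rw [hF] at h0 h1 ⊢
    refine H88.mem_cl_of_root (p := .X ^ 2 - .C (s ^ 2)) (Polynomial.X_pow_sub_C_ne_zero two_pos _)
      (fun i => ?_) (by simp)
    rw [Polynomial.coeff_sub, Polynomial.coeff_X_pow, Polynomial.coeff_C]
    refine sub_mem (by split_ifs <;> simp) ?_
    split_ifs
    · rw [e]
      refine sum_mem fun i _ => mul_mem ?_ (pow_mem h1 _)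
      rw [pm, Polynomial.coeff_map]
      exact H32.aeval_mem_cl h0 _
    · exact zero_mem _
  have h3 : ∀ o, hv c (Bm (A.map (algebraMap C L)) μ) l s o ∈ F := fun o => by
    rw [← aeval_hU, hF]
    refine H32.aeval_mem_cl (fun i => ?_) _
    rw [← hF]
    rcases i with _ | _ | i
    exacts [h2, h1, h0 i]
  rw [ek, ← (E.hv hB hs hc l).1, ← hF]
  have h4 : ∀ a b : Option ι → L, (∀ o, a o ∈ F) → (∀ o, b o ∈ F) → a ⬝ᵥ b ∈ F :=
    fun a b ha hb => sum_mem fun o _ => mul_mem (ha o) (hb o)
  have h5 : ∀ Z : Option ι → L, (∀ o, Z o ∈ F) →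
      ∀ i, sp (sr (hv c (Bm (A.map (algebraMap C L)) μ) l s) Z) i ∈ F := fun Z hZ i =>
    sub_mem (hZ _) (mul_mem (div_mem (mul_mem (ofNat_mem _ 2) (h4 _ _ h3 hZ))
      (sum_mem fun o _ => mul_mem (h3 _) (h3 _))) (h3 _))
  rintro _ ⟨i | i, rfl⟩ <;> refine h5 _ (fun o => ?_) i <;> cases o
  exacts [one_mem _, h0 _, zero_mem _, h0 _]

/-- The edge is algebraic over the reflected edge and the parameter. -/
lemma cl_red (hB : (Bm (A.map (algebraMap C L)) μ).IsSymm) (hs : s ≠ 0)
    (E : Eig (Bm (A.map (algebraMap C L)) μ) l s α β)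
    (ek : k = Bm (A.map (algebraMap C L)) μ *ᵥ Y l α β) (he : ee k k ≠ 0) :
    insert μ (Set.range l) ⊆ cl C (insert μ (Set.range (red k l))) := by
  obtain ⟨e, E'⟩ := E.red (ek ▸ he)
  rw [← ek] at e E'
  have := red_cl hB (neg_ne_zero.2 hs) E' (k := k) (by rw [e, ek])
  rw [red_red he] at this
  exact Set.insert_subset (H88.subset_cl _ (.inl rfl)) this

end Rank

end Pool.Agent.MP_249f74_an.H23
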